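import Pool.Agent.T9h23.Ab.A9

/-!
# Hall's inequality at all abscissas `x` in `f (ℤ)`, for almost all linear perturbations `f = g + p t + q`

Let `g` be ANY monic integer polynomial of even degree `d ≥ 8`, and let `C` be any real number (also a very negative
one). For all but `O (H ^ (2 - 1 / (d - 1)))` of the pairs of integers `|p|, |q| ≤ H` the polynomial
`f = g + p t + q` satisfies: if `y ^ 2 = x ^ 3 + k` with `k ≠ 0` and `x = f (n) ≠ 0`, `n` ANY integer, then
`log |x| < 2 log |k| + C`.

* small and moderate `n` (`T9h23.Ab.totalA`): the abscissas `x` with `(y ^ 2 - x ^ 3) ^ 2 < A |x|` for some `y` are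
  separated by `c |x| ^ (1 / 4)` (`T9h61.Strong.powers`, a strong repulsion), so there are `O (Y ^ (3 / 4))` of them up
  to `Y` and `O (T / w ^ (1 / 4) + 1)` in a short interval of length `T` at `w`.
* large `n` (`T9h23.Ab.largeEx`): the expansion of `f (n) ^ (3 / 2)` at infinity. Its polynomial part has rational
  coefficients with bounded denominators, so a small value of `|y ^ 2 - f (n) ^ 3|` forces `y` to be equal to it, and
  then the next coefficients must cancel (`T9h23.Ab.hallM`, `T9h23.Ab.condQ`). For `g + p t + q` these coefficients are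
  `λ_i (g) + p α_i (g) + q β_i (g)` with one quadratic term (`T9h23.Ab.lamb_pert`), and in each of the four cases (first
  coefficient that does not vanish identically) only few pairs are left.
-/

set_option autoImplicit false

namespace Pool.Agent.Results.MP_9d7cd1_nt.AllAbscissasLinearPerturbations

open Finset Polynomial
open scoped Classical

/-- the inequality of Q1, with `ε = 0` and the constant `C`, for all solutions `(x, y)` of `y ^ 2 = x ^ 3 + k`, `k` any
non-zero integer, with `x ≠ 0` a value of the polynomial `f` -/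
def HallAtAllAbscissas (C : ℝ) (f : ℤ[X]) : Prop := ∀ n y k : ℤ, k ≠ 0 → f.eval n ≠ 0 → y ^ 2 = (f.eval n) ^ 3 + k →
  Real.log |((f.eval n : ℤ) : ℝ)| < 2 * Real.log |(k : ℝ)| + C

/-- **Hall's inequality at all abscissas in the image of almost all linear perturbations.** -/
theorem result (g : ℤ[X]) (hg : g.Monic) (he : Even g.natDegree) (h8 : 8 ≤ g.natDegree) (C : ℝ) :
    ∃ K : ℝ, ∀ H : ℕ, 1 ≤ H → (((Icc (-(H : ℤ)) H ×ˢ Icc (-(H : ℤ)) H).filter
      (fun c => ¬ HallAtAllAbscissas C (g + Polynomial.C c.1 * X + Polynomial.C c.2))).card : ℝ) ≤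
        K * (H : ℝ) ^ (2 - 1 / ((g.natDegree : ℝ) - 1)) := by
  obtain ⟨r, hr⟩ := he
  have hr2 : g.natDegree = 2 * r := by omega
  have hr4 : 4 ≤ r := by omega
  obtain ⟨A, hA⟩ : ∃ A : ℕ, Real.exp (-C) < A := exists_nat_gt _
  obtain ⟨K, -, hK⟩ := T9h23.Ab.finalA r hr4 (fun i : Fin (2 * r) => g.coeff i) A
  refine ⟨K, fun H hH => ?_⟩
  have h1 := hK H hH
  have e1 : ((2 * r - 1 : ℕ) : ℝ) = (g.natDegree : ℝ) - 1 := by
    rw [hr2, Nat.cast_sub (by omega)]
    push_cast
    ring
  rw [e1] at h1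
  refine le_trans ?_ h1
  have hmv : ∀ n : ℤ, g.eval n = T9h23.Ru.mv (fun i : Fin (2 * r) => g.coeff i) n := by
    intro n
    unfold T9h23.Ru.mv
    have h2 : g.coeff (2 * r) = 1 := by rw [← hr2]; exact hg
    rw [eval_eq_sum_range, hr2, Finset.sum_range_succ, h2, one_mul, add_comm,
      Fin.sum_univ_eq_sum_range (fun i => g.coeff i * n ^ i)]
  have h3 : (Icc (-(H : ℤ)) H ×ˢ Icc (-(H : ℤ)) H).filter
      (fun c => ¬ HallAtAllAbscissas C (g + Polynomial.C c.1 * X + Polynomial.C c.2)) ⊆ (T9h23.Pe.sq H).filter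
      (fun c => ∃ n : ℤ, T9h23.Ab.Exc A (T9h23.Ru.mv (fun i : Fin (2 * r) => g.coeff i) n + (c.1 * n + c.2))) := by
    intro c hc
    rw [mem_filter] at hc ⊢
    refine ⟨hc.1, ?_⟩
    by_contra hcon
    apply hc.2
    intro n y k hk hx hy
    have e2 : (g + Polynomial.C c.1 * X + Polynomial.C c.2).eval n =
        T9h23.Ru.mv (fun i : Fin (2 * r) => g.coeff i) n + (c.1 * n + c.2) := by
      rw [eval_add, eval_add, eval_mul, eval_C, eval_C, eval_X, hmv]
      ring
    obtain ⟨x, hxd⟩ : ∃ x : ℤ, x = (g + Polynomial.C c.1 * X + Polynomial.C c.2).eval n := ⟨_, rfl⟩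
    rw [← hxd] at hx hy ⊢
    have h4 : A * |x| ≤ k ^ 2 := by
      by_contra h5
      push Not at h5
      refine hcon ⟨n, y, ?_, ?_⟩
      · rw [← e2, ← hxd, hy]
        intro h6
        exact hk (by linarith)
      · rw [← e2, ← hxd, hy]
        have e3 : x ^ 3 + k - x ^ 3 = k := by ring
        rw [e3]
        exact h5
    have hx0 : (0 : ℝ) < |(x : ℝ)| := abs_pos.2 (by exact_mod_cast hx)
    have hk0 : (0 : ℝ) < |(k : ℝ)| := abs_pos.2 (by exact_mod_cast hk)
    have h5 : (A : ℝ) * |(x : ℝ)| ≤ |(k : ℝ)| ^ 2 := by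
      rw [sq_abs]
      exact_mod_cast h4
    have h6 : Real.exp (-C) * |(x : ℝ)| < |(k : ℝ)| ^ 2 := lt_of_lt_of_le (by gcongr) h5
    have h7 := Real.log_lt_log (by positivity) h6
    rw [Real.log_mul (Real.exp_pos _).ne' hx0.ne', Real.log_exp, Real.log_pow] at h7
    push_cast at h7
    linarith
  exact_mod_cast Finset.card_le_card h3

end Pool.Agent.Results.MP_9d7cd1_nt.AllAbscissasLinearPerturbations
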