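import Pool.Agent.T9h23.Tr.G5

/-!
# Hall's inequality, with a uniform constant, at all `S`-unit arguments of almost all polynomials

Let `S` be a finite set of primes. For all but a proportion `H ^ (-1/3 + ρ)` of the vectors `(a_0, ..., a_k)` of integers
`|a_i| ≤ H`, the inequality `log |x| ≤ (2 + ε) log |d|` holds for ALL integral points `(x, y)` of ALL the curves
`y ^ 2 = x ^ 3 + d`, `d ≠ 0`, whose abscissa is of the form `x = b u + a_0 + a_1 v_0 + ... + a_k v_(k-1)` with positive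
integers `u, v_i` all of whose prime factors are in `S` (of any size), `v_i ≤ u ^ (1 - η)`, `1 ≤ |b| ≤ A`. The same is true
for the ordinates, with the proportion `H ^ (-2/3 + ρ)`. For instance `x = f (t)` (`y = f (t)`), `f` a monic polynomial of
degree `k + 1` with random coefficients, `t` any `S`-unit, or `x = 2 ^ n + c`.

* Large `u` (`T9h23.Tr.size_x`, `size_y`): the starting theorem `SparseAbscissa.general` (subspace theorem, polynomial
  dependence on the coefficients).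
* Small `u` (`T9h23.Tr.winX`, `winY`): each interval of length `2 H`, at any height, contains `O (H ^ (2/3))` abscissas
  (`O (H ^ (1/3))` ordinates) of exceptional points: by the global count `X ^ (1/3)` of the starting files below the
  height `H ^ 2` (`H ^ (3/2)`), and above it because three exceptional abscissas near `X` are not in an interval of
  length `X ^ (1/6)`. There are few tuples of `S`-units.
-/

set_option autoImplicit false

namespace Pool.Agent.Results.MP_9d7cd1_nt.AllSUnitArguments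

open Finset
open scoped Classical

/-- a positive integer with all its prime factors in `S` -/
def SUnit (S : Finset ℕ) (u : ℕ) : Prop := u ≠ 0 ∧ u.primeFactors ⊆ S

/-- the arguments: a multiple `b u` of a dominating `S`-unit, `1 ≤ |b| ≤ A`, and `k` smaller `S`-units -/
def Dominated (S : Finset ℕ) (k A : ℕ) (η : ℝ) (b : ℤ) (u : ℕ) (v : Fin k → ℕ) : Prop :=
  b ≠ 0 ∧ |b| ≤ A ∧ SUnit S u ∧ ∀ i, SUnit S (v i) ∧ (v i : ℝ) ≤ (u : ℝ) ^ (1 - η)

/-- the integer `b u + a_0 + a_1 v_0 + ... + a_k v_(k-1)` -/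
def value {k : ℕ} (b : ℤ) (u : ℕ) (v : Fin k → ℕ) (a : Fin (k + 1) → ℤ) : ℤ :=
  b * u + a 0 + ∑ i : Fin k, a i.succ * v i

/-- the vectors with `k + 1` integral entries of absolute value at most `H` -/
noncomputable def Box (k H : ℕ) : Finset (Fin (k + 1) → ℤ) := Fintype.piFinset fun _ => Icc (-(H : ℤ)) H

/-- Hall's inequality for all integral points with an abscissa `value b u v a` -/
def HallAbscissas (S : Finset ℕ) (k A : ℕ) (η ε : ℝ) (a : Fin (k + 1) → ℤ) : Prop :=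
  ∀ b u v, Dominated S k A η b u v → ∀ d x y : ℤ, d ≠ 0 → y ^ 2 = x ^ 3 + d → x = value b u v a →
    Real.log |(x : ℝ)| ≤ (2 + ε) * Real.log |(d : ℝ)|

/-- Hall's inequality for all integral points with an ordinate `value b u v a` -/
def HallOrdinates (S : Finset ℕ) (k A : ℕ) (η ε : ℝ) (a : Fin (k + 1) → ℤ) : Prop :=
  ∀ b u v, Dominated S k A η b u v → ∀ d x y : ℤ, d ≠ 0 → y ^ 2 = x ^ 3 + d → y = value b u v a →
    Real.log |(x : ℝ)| ≤ (2 + ε) * Real.log |(d : ℝ)|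

theorem shape {S : Finset ℕ} {k A : ℕ} {η : ℝ} {b : ℤ} {u : ℕ} {v : Fin k → ℕ} (h : Dominated S k A η b u v) :
    T9h23.Tr.Shape S k A η b u v :=
  ⟨h.1, h.2.1, h.2.2.1.1, h.2.2.1.2, fun i => (h.2.2.2 i).1.1, fun i => (h.2.2.2 i).1.2, fun i => (h.2.2.2 i).2⟩

/-- a violation is an exception -/
theorem viol {ε : ℝ} (hε : 0 < ε) {d x y : ℤ} (hd : d ≠ 0) (h : y ^ 2 = x ^ 3 + d)
    (hlog : ¬ Real.log |(x : ℝ)| ≤ (2 + ε) * Real.log |(d : ℝ)|) : y ^ 2 ≠ x ^ 3 ∧
    |(y : ℝ) ^ 2 - (x : ℝ) ^ 3| < |(x : ℝ)| ^ (1 / 2 - (1 / 2 - 1 / (2 + ε))) := by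
  push Not at hlog
  have hd1 : (1 : ℝ) ≤ |(d : ℝ)| := by
    have : 1 ≤ |d| := Int.one_le_abs hd
    exact_mod_cast this
  have hlogd : 0 ≤ Real.log |(d : ℝ)| := Real.log_nonneg hd1
  have hx0 : x ≠ 0 := by
    rintro rfl
    rw [Int.cast_zero, abs_zero, Real.log_zero] at hlog
    have : 0 ≤ (2 + ε) * Real.log |(d : ℝ)| := by positivity
    linarith
  have hx : 0 < |(x : ℝ)| := by
    rw [abs_pos]; exact_mod_cast hx0
  have hdr : (y : ℝ) ^ 2 - (x : ℝ) ^ 3 = d := by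
    have h3 : ((y ^ 2 : ℤ) : ℝ) = ((x ^ 3 + d : ℤ) : ℝ) := by rw [h]
    push_cast at h3
    linarith
  refine ⟨fun h1 => hd (by linarith), ?_⟩
  rw [hdr, show (1 : ℝ) / 2 - (1 / 2 - 1 / (2 + ε)) = 1 / (2 + ε) by ring, ← Real.log_lt_log_iff (by linarith)
    (by positivity), Real.log_rpow hx, one_div, lt_inv_mul_iff₀ (by positivity)]
  exact hlog

theorem delta {ε : ℝ} (hε : 0 < ε) : 0 < 1 / 2 - 1 / (2 + ε) ∧ 1 / 2 - 1 / (2 + ε) ≤ 1 / 2 := by
  constructor
  · have h1 : 1 / (2 + ε) < 1 / 2 := one_div_lt_one_div_of_lt (by norm_num) (by linarith)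
    linarith
  · have : 0 < 1 / (2 + ε) := by positivity
    linarith

/-- **Main theorem.** (1) abscissas, (2) ordinates, (3) the values of monic polynomials at `S`-units are of this form. -/
theorem result :
    (∀ (S : Finset ℕ) (k A : ℕ) (η ε ρ : ℝ), 0 < η → η ≤ 1 → 0 < ε → 0 < ρ → ∃ K : ℝ, ∀ H : ℕ, 1 ≤ H →
      (((Box k H).filter (fun a => ¬ HallAbscissas S k A η ε a)).card : ℝ) ≤
        K * (2 * (H : ℝ) + 1) ^ k * (H : ℝ) ^ (2 / 3 + ρ)) ∧
    (∀ (S : Finset ℕ) (k A : ℕ) (η ε ρ : ℝ), 0 < η → η ≤ 1 → 0 < ε → 0 < ρ → ∃ K : ℝ, ∀ H : ℕ, 1 ≤ H →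
      (((Box k H).filter (fun a => ¬ HallOrdinates S k A η ε a)).card : ℝ) ≤
        K * (2 * (H : ℝ) + 1) ^ k * (H : ℝ) ^ (1 / 3 + ρ)) ∧
    (∀ (S : Finset ℕ) (k t : ℕ), SUnit S t →
      Dominated S k 1 (1 / (k + 1)) 1 (t ^ (k + 1)) (fun i => t ^ ((i : ℕ) + 1)) ∧
      ∀ a : Fin (k + 1) → ℤ, value 1 (t ^ (k + 1)) (fun i : Fin k => t ^ ((i : ℕ) + 1)) a =
        (t : ℤ) ^ (k + 1) + ∑ i : Fin (k + 1), a i * (t : ℤ) ^ (i : ℕ)) := by
  refine ⟨?_, ?_, ?_⟩
  · intro S k A η ε ρ hη hη1 hε hρ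
    obtain ⟨hδ0, hδ1⟩ := delta hε
    obtain ⟨K, -, hK⟩ := T9h23.Tr.mainX S k A η ρ _ hη hη1 hρ hδ0 hδ1
    refine ⟨K, fun H hH => le_trans ?_ (hK H hH)⟩
    have h1 : (Box k H).filter (fun a => ¬ HallAbscissas S k A η ε a) ⊆
        (T9h23.Op.box (k + 1) H).filter (fun a => ∃ b u v, T9h23.Tr.Shape S k A η b u v ∧
          T9h23.Ha.BadX (1 / 2 - 1 / (2 + ε)) (T9h23.Tr.val b u v a)) := by
      intro a ha
      rw [mem_filter] at ha ⊢
      refine ⟨ha.1, ?_⟩
      by_contra hcon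
      apply ha.2
      intro b u v hs d x y hd hxy hx
      by_contra hl
      apply hcon
      obtain ⟨g1, g2⟩ := viol hε hd hxy hl
      have hx' : x = T9h23.Tr.val b u v a := hx
      refine ⟨b, u, v, shape hs, y, ?_, ?_⟩
      · rw [← hx']; exact g1
      · rw [← hx']; exact g2
    exact_mod_cast Finset.card_le_card h1
  · intro S k A η ε ρ hη hη1 hε hρ
    obtain ⟨hδ0, hδ1⟩ := delta hε
    obtain ⟨K, -, hK⟩ := T9h23.Tr.mainY S k A η ρ _ hη hη1 hρ hδ0 hδ1
    refine ⟨K, fun H hH => le_trans ?_ (hK H hH)⟩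
    have h1 : (Box k H).filter (fun a => ¬ HallOrdinates S k A η ε a) ⊆
        (T9h23.Op.box (k + 1) H).filter (fun a => ∃ b u v, T9h23.Tr.Shape S k A η b u v ∧
          T9h23.Ha.BadY (1 / 2 - 1 / (2 + ε)) (T9h23.Tr.val b u v a)) := by
      intro a ha
      rw [mem_filter] at ha ⊢
      refine ⟨ha.1, ?_⟩
      by_contra hcon
      apply ha.2
      intro b u v hs d x y hd hxy hx
      by_contra hl
      apply hcon
      obtain ⟨g1, g2⟩ := viol hε hd hxy hl
      have hx' : y = T9h23.Tr.val b u v a := hx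
      refine ⟨b, u, v, shape hs, x, ?_, ?_⟩
      · rw [← hx']; exact g1
      · rw [← hx']; exact g2
    exact_mod_cast Finset.card_le_card h1
  · intro S k t ht
    have ht1 : 1 ≤ t := Nat.one_le_iff_ne_zero.2 ht.1
    refine ⟨⟨one_ne_zero, by simp, ⟨pow_ne_zero _ ht.1, ?_⟩, fun i => ⟨⟨pow_ne_zero _ ht.1, ?_⟩, ?_⟩⟩, ?_⟩
    · rw [Nat.primeFactors_pow _ (by omega)]
      exact ht.2
    · rw [Nat.primeFactors_pow _ (by omega)]
      exact ht.2
    · have htr : (1 : ℝ) ≤ t := by exact_mod_cast ht1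
      have hi := i.isLt
      push_cast
      calc (t : ℝ) ^ ((i : ℕ) + 1) ≤ (t : ℝ) ^ k := pow_le_pow_right₀ htr (by omega)
        _ = ((t : ℝ) ^ (k + 1)) ^ (1 - 1 / ((k : ℝ) + 1)) := by
          rw [← Real.rpow_natCast (t : ℝ) (k + 1), ← Real.rpow_mul (by positivity), ← Real.rpow_natCast (t : ℝ) k]
          congr 1
          push_cast
          field_simp
          ring
    · intro a
      unfold value
      rw [Fin.sum_univ_succ]
      push_cast
      simp only [one_mul, Fin.val_zero, pow_zero, mul_one, Fin.val_succ]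
      ring

end Pool.Agent.Results.MP_9d7cd1_nt.AllSUnitArguments
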