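import Pool.Agent.T9h23.Ha.E5

/-!
# Hall's conjecture on the whole value sets of almost all monic quadratic polynomials

For all but a power saving proportion of the polynomials `f = t ^ 2 + b t + c` with integral coefficients
`|b|, |c| ≤ H` the inequality of Hall holds for ALL integral points `(x, y)` of all the curves
`y ^ 2 = x ^ 3 + d`, `d ≠ 0`, whose abscissa is a value `x = f(n)` at any integer `n` (not only for `|n| ≤ N`).

The proof has two parts. (1) For `|n| ≤ 10 H ^ 3` the number of the abscissas `x ≤ X` of the exceptions to the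
inequality is at most `X ^ (1 / 3 - δ / 12)` (starting file `MP_e734ed_nt.SparseExceptions`), and an integer
`x ≥ H ^ (11 / 5)` is a value of at most `H ^ (δ / 40) (1 + H ^ 2 / √x)` of the polynomials, apart from those
with small discriminant. (2) If `4 x = M ^ 2 + R` with `R ≠ 0` and `2 |R| ^ 3 ≤ M ^ 2`, `|M| ≥ 10 ^ 6`, then
`|y ^ 2 - x ^ 3| ≥ |M|` for all `y` (elementary descent); this takes care of all larger `n`. The two ranges meet
exactly.
-/

set_option autoImplicit false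

namespace Pool.Agent.Results.MP_9d7cd1_nt.AllValuesOfQuadratics

/-- Hall's inequality `log |x| ≤ (2 + ε) log |d|` for all integral points `(x, y)`, `x ≠ 0`, of all curves
`y ^ 2 = x ^ 3 + d`, `d ≠ 0`, with abscissa `x = n ^ 2 + b n + c`, `n` any integer -/
def HallOnValues (ε : ℝ) (b c : ℤ) : Prop :=
  ∀ n x y d : ℤ, x = n ^ 2 + b * n + c → x ≠ 0 → d ≠ 0 → y ^ 2 = x ^ 3 + d →
    Real.log |(x : ℝ)| ≤ (2 + ε) * Real.log |(d : ℝ)|

/-- **Hall's conjecture on the value sets of almost all monic quadratic polynomials.** -/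
theorem result (ε : ℝ) (hε : 0 < ε) : ∃ η : ℝ, 0 < η ∧ ∃ H₀ : ℕ, ∀ H : ℕ, H₀ ≤ H →
    ({p : ℤ × ℤ | |p.1| ≤ H ∧ |p.2| ≤ H ∧ ¬ HallOnValues ε p.1 p.2}.ncard : ℝ) ≤ (H : ℝ) ^ (2 - η) := by
  classical
  set δ : ℝ := 1 / 2 - 1 / (2 + ε) with hδ
  have h2 : 0 < 2 + ε := by linarith
  have hδ0 : 0 < δ := by
    have : 1 / (2 + ε) < 1 / 2 := one_div_lt_one_div_of_lt (by norm_num) (by linarith)
    rw [hδ]; linarith
  have hδ1 : δ ≤ 1 / 2 := by
    have : 0 < 1 / (2 + ε) := by positivity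
    rw [hδ]; linarith
  obtain ⟨H0, hH0⟩ := T9h23.Ha.quadratics δ hδ0 hδ1
  refine ⟨δ / 80, by positivity, H0, ?_⟩
  intro H hH
  refine le_trans ?_ (hH0 H hH)
  have hsub : {p : ℤ × ℤ | |p.1| ≤ H ∧ |p.2| ≤ H ∧ ¬ HallOnValues ε p.1 p.2} ⊆
      (((T9h23.Ha.sq H).filter (fun p => ∃ n : ℤ, T9h23.Ha.BadX δ (T9h23.Ha.qv p n)) : Finset _) : Set _) := by
    intro p hp
    obtain ⟨hp1, hp2, hp3⟩ := hp
    rw [Finset.mem_coe, Finset.mem_filter, T9h23.Ha.mem_sq]
    refine ⟨⟨hp1, hp2⟩, ?_⟩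
    unfold HallOnValues at hp3
    push Not at hp3
    obtain ⟨n, x, y, d, hx, hx0, hd0, hy, hlt⟩ := hp3
    refine ⟨n, y, ?_, ?_⟩
    · have e1 : T9h23.Ha.qv p n = x := by rw [hx]; rfl
      rw [e1, hy]
      intro h
      apply hd0
      linarith
    · have e1 : T9h23.Ha.qv p n = x := by rw [hx]; rfl
      rw [e1]
      have e2 : (y : ℝ) ^ 2 - (x : ℝ) ^ 3 = d := by
        have : (y : ℝ) ^ 2 = (x : ℝ) ^ 3 + d := by exact_mod_cast hy
        rw [this]; ring
      rw [e2]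
      have hx1 : (0 : ℝ) < |(x : ℝ)| := by
        rw [abs_pos]; exact_mod_cast hx0
      have hd1 : (0 : ℝ) < |(d : ℝ)| := by
        rw [abs_pos]; exact_mod_cast hd0
      have e3 : 1 / 2 - δ = 1 / (2 + ε) := by rw [hδ]; ring
      rw [e3]
      rw [← Real.log_lt_log_iff hd1 (Real.rpow_pos_of_pos hx1 _), Real.log_rpow hx1]
      rw [one_div, inv_mul_eq_div, lt_div_iff₀ h2]
      linarith
  have h3 := Set.ncard_le_ncard hsub (Finset.finite_toSet _)
  rw [Set.ncard_coe_finset] at h3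
  exact_mod_cast h3

end Pool.Agent.Results.MP_9d7cd1_nt.AllValuesOfQuadratics
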