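import Pool.Agent.T9h58.Hall.Main

/-!
# Hall's bound for divisible integral points of the Mordell curves

Let `d ≠ 0` be an integer and let `(x, y)` be an integral point of `y ^ 2 = x ^ 3 + d` which is `n P` for a
rational point `P` of the curve, `n = 2 ^ a * 3 ^ b ≥ 4`. Then
`|x| ≤ C(n, ε) |d| ^ (n ^ 2 / (3 (n ^ 2 - 12)) + ε)`. The constants do not depend on `d`. The exponents are
`1 / 2` for `n = 6`, `16 / 39` for `n = 8`, `9 / 23` for `n = 9`, `4 / 11` for `n = 12`, and they tend to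
`1 / 3`: the integral points with `|x| ≥ |d| ^ (1 / 3 + δ)` and `|d|` large are not highly divisible by 2
and 3.

With `s = x(P) ^ 3 / d` and `t = x ^ 3 / d`, the number `t` is a rational function of degree `n ^ 2` of `s`,
the same for all `d`; its poles are of order 3 at `-1`, of order 2 at `0` and of order at most 6 elsewhere,
and its values at rational numbers are controlled by the theorem of Roth, while the height of `t` is at
least a constant times the `n ^ 2`-th power of the height of `s`.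
-/

set_option autoImplicit false

namespace Pool.Agent.Results.MP_9d7cd1_nt.DivisiblePoints

open Pool.Agent.T9h58.Hall

/-- **Hall's bound for divisible integral points.** `IsMul n d x y` says that `(x, y)` is a point of
`y ^ 2 = x ^ 3 + d` and `n` times a rational point of this curve. For every `n = 2 ^ a * 3 ^ b ≥ 4` the
exponent of `|d|` is `n ^ 2 / (3 (n ^ 2 - 12)) + ε`; in particular it can be any number greater than
`1 / 3` if `n` is large. -/
theorem result :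
    (∀ a b : ℕ, 4 ≤ 2 ^ a * 3 ^ b → ∀ ε : ℝ, 0 < ε → ∃ C : ℝ, 0 < C ∧
      ∀ d x y : ℤ, d ≠ 0 → IsMul (2 ^ a * 3 ^ b) d x y →
        |(x : ℝ)| ≤ C * |(d : ℝ)| ^
          ((((2 ^ a * 3 ^ b : ℕ) : ℝ) ^ 2) / (3 * (((2 ^ a * 3 ^ b : ℕ) : ℝ) ^ 2 - 12)) + ε)) ∧
    (∀ δ : ℝ, 0 < δ → ∃ n₀ : ℕ, ∀ a b : ℕ, n₀ ≤ 2 ^ a * 3 ^ b → ∃ C : ℝ, 0 < C ∧
      ∀ d x y : ℤ, d ≠ 0 → IsMul (2 ^ a * 3 ^ b) d x y →
        |(x : ℝ)| ≤ C * |(d : ℝ)| ^ ((1 : ℝ) / 3 + δ)) := by
  refine ⟨boundn, fun δ hδ => ?_⟩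
  obtain ⟨N, hN⟩ := exists_nat_ge (8 / δ)
  refine ⟨N + 4, fun a b hab => ?_⟩
  obtain ⟨C, hC, h⟩ := boundn a b (by omega) (δ / 2) (by positivity)
  refine ⟨C, hC, fun d x y hd hm => (h d x y hd hm).trans ?_⟩
  refine mul_le_mul_of_nonneg_left ?_ hC.le
  have hd1 : 1 ≤ |(d : ℝ)| := by
    have : (1 : ℤ) ≤ |d| := Int.one_le_abs hd
    exact_mod_cast this
  apply Real.rpow_le_rpow_of_exponent_le hd1
  obtain ⟨n, hn⟩ : ∃ n : ℝ, n = ((2 ^ a * 3 ^ b : ℕ) : ℝ) := ⟨_, rfl⟩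
  rw [← hn]
  have hn1 : (N : ℝ) + 4 ≤ n := by
    rw [hn]
    exact_mod_cast hab
  have hN0 : (0 : ℝ) ≤ N := by positivity
  have hn2 : n ≤ n ^ 2 - 12 := by nlinarith
  have hpos : 0 < n ^ 2 - 12 := by linarith
  have h8 : 8 / δ ≤ n ^ 2 - 12 := by linarith
  rw [div_le_iff₀ hδ] at h8
  have h9 : n ^ 2 / (3 * (n ^ 2 - 12)) = 1 / 3 + 4 / (n ^ 2 - 12) := by
    field_simp
    ring
  have h10 : 4 / (n ^ 2 - 12) ≤ δ / 2 := by
    rw [div_le_iff₀ hpos]
    linarith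
  rw [h9]
  linarith

end Pool.Agent.Results.MP_9d7cd1_nt.DivisiblePoints
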